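import Mathlib

/-!
# The Whitman number of the dual of the partition lattice on four points (MP_437e5a_co, Q1)

For every `n`, the dual of the partition lattice of an `(n + 1)`-element set embeds into the
partition lattice of a set with `60 ^ n` elements.  For `n = 3` this gives
`w(L_4^*) ≤ 60 ^ 3 = 216000 < 2 ^ 1000`.

Let `G` be a perfect group and let `H_π ≤ G ^ (n + 1)` be the group of functions that are constant
on the blocks of `π`.  Then `H_{π ∨ σ} = H_π ∩ H_σ` and, because `G` is perfect,
`H_{π ∧ σ} = ⟨H_π, H_σ⟩`.  All these groups contain the diagonal, and their coset partitions of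
`G ^ (n + 1)` modulo the diagonal are the desired partitions.
-/

set_option autoImplicit false

open scoped commutatorElement

namespace Pool.Agent.Results.MP_437e5a_co.WhitmanNumberBound

/-- The lattice `L` is representable by partitions of `A`: there is an injective map from `L` to the
partition lattice of `A` (equivalence relations on `A`, ordered by refinement) that preserves
binary meets and joins. -/
def Representable (L : Type) [Lattice L] (A : Type) : Prop :=
  ∃ f : L → Setoid A, Function.Injective f ∧
    (∀ x y, f (x ⊓ y) = f x ⊓ f y) ∧ ∀ x y, f (x ⊔ y) = f x ⊔ f y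

/-- The Whitman number of `L`: the least `n` such that `L` is representable by partitions of a set
with `n` elements. -/
noncomputable def whitmanNumber (L : Type) [Lattice L] : ℕ :=
  sInf {n | Representable L (Fin n)}

section group

variable {G : Type} [Group G] {n : ℕ}

/-- a function on the `n` nonzero indices, extended by `1` -/
def ext (f : Fin n → G) : Fin (n + 1) → G := Fin.cons 1 f

/-- the normalised representative of the coset of `x` modulo the diagonal -/
def nrm (x : Fin (n + 1) → G) : Fin n → G := fun i => x i.succ * (x 0)⁻¹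

lemma ext_nrm (x : Fin (n + 1) → G) (i : Fin (n + 1)) : ext (nrm x) i = x i * (x 0)⁻¹ := by
  refine Fin.cases ?_ (fun j => ?_) i
  · simp [ext]
  · simp [ext, nrm]

lemma nrm_ext (f : Fin n → G) : nrm (ext f) = f := by
  funext i
  simp [nrm, ext]

/-- the coset partition of `π` -/
def rel (π : Setoid (Fin (n + 1))) : Setoid (Fin n → G) where
  r f g := π ≤ Setoid.ker (fun i => (ext f i)⁻¹ * ext g i)
  iseqv :=
    { refl := fun f i j _ => by
        show (ext f i)⁻¹ * ext f i = (ext f j)⁻¹ * ext f j
        simp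
      symm := fun {f g} h i j hij => by
        have h1 : (ext f i)⁻¹ * ext g i = (ext f j)⁻¹ * ext g j := h hij
        show (ext g i)⁻¹ * ext f i = (ext g j)⁻¹ * ext f j
        have h2 := congrArg (·⁻¹) h1
        simpa [mul_inv_rev] using h2
      trans := fun {f g k} h h' i j hij => by
        have h1 : (ext f i)⁻¹ * ext g i = (ext f j)⁻¹ * ext g j := h hij
        have h2 : (ext g i)⁻¹ * ext k i = (ext g j)⁻¹ * ext k j := h' hij
        show (ext f i)⁻¹ * ext k i = (ext f j)⁻¹ * ext k j
        have e1 : (ext f i)⁻¹ * ext k i = ((ext f i)⁻¹ * ext g i) * ((ext g i)⁻¹ * ext k i) := by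
          group
        have e2 : (ext f j)⁻¹ * ext k j = ((ext f j)⁻¹ * ext g j) * ((ext g j)⁻¹ * ext k j) := by
          group
        rw [e1, e2, h1, h2] }

lemma rel_iff (π : Setoid (Fin (n + 1))) (f g : Fin n → G) :
    rel π f g ↔ π ≤ Setoid.ker (fun i => (ext f i)⁻¹ * ext g i) := Iff.rfl

lemma rel_sup (π σ : Setoid (Fin (n + 1))) : rel (G := G) (π ⊔ σ) = rel π ⊓ rel σ := by
  apply Setoid.ext
  intro f g
  rw [Setoid.inf_iff_and, rel_iff, rel_iff, rel_iff, sup_le_iff]

lemma rel_anti {π σ : Setoid (Fin (n + 1))} (h : π ≤ σ) : rel (G := G) σ ≤ rel π :=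
  fun _ _ hfg => le_trans h hfg

lemma rel_nrm_mul (π : Setoid (Fin (n + 1))) (x h : Fin (n + 1) → G) (hh : π ≤ Setoid.ker h) :
    rel π (nrm x) (nrm (x * h)) := by
  intro i j hij
  have h1 : h i = h j := hh hij
  show (ext (nrm x) i)⁻¹ * ext (nrm (x * h)) i = (ext (nrm x) j)⁻¹ * ext (nrm (x * h)) j
  rw [ext_nrm, ext_nrm, ext_nrm, ext_nrm, Pi.mul_apply, Pi.mul_apply, Pi.mul_apply, h1]
  group

/-- the subgroup of all `h` such that right multiplication by `h` preserves the classes of `J` -/
def stab (J : Setoid (Fin n → G)) : Subgroup (Fin (n + 1) → G) where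
  carrier := {h | ∀ x, J (nrm x) (nrm (x * h))}
  one_mem' := fun x => by rw [mul_one]
  mul_mem' := fun {a b} ha hb x => by
    rw [← mul_assoc]
    exact J.trans (ha x) (hb (x * a))
  inv_mem' := fun {a} ha x => by
    have := ha (x * a⁻¹)
    rw [inv_mul_cancel_right] at this
    exact J.symm this

open Classical in
/-- the function equal to `g` on `B` and to `1` elsewhere -/
noncomputable def ind (B : Set (Fin (n + 1))) (g : G) : Fin (n + 1) → G :=
  fun i => if i ∈ B then g else 1

lemma ind_mul (B : Set (Fin (n + 1))) (g h : G) : ind B (g * h) = ind B g * ind B h := by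
  funext i
  by_cases hi : i ∈ B <;> simp [ind, hi]

lemma ind_inv (B : Set (Fin (n + 1))) (g : G) : ind B g⁻¹ = (ind B g)⁻¹ := by
  funext i
  by_cases hi : i ∈ B <;> simp [ind, hi]

lemma ind_comm (B C : Set (Fin (n + 1))) (g h : G) :
    ⁅ind B g, ind C h⁆ = ind (B ∩ C) ⁅g, h⁆ := by
  funext i
  rw [commutatorElement_def, commutatorElement_def]
  by_cases hB : i ∈ B <;> by_cases hC : i ∈ C <;> simp [ind, hB, hC]

lemma ind_ker (π : Setoid (Fin (n + 1))) (a : Fin (n + 1)) (g : G) :
    π ≤ Setoid.ker (ind {i | π a i} g) := by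
  intro i j hij
  show ind {i | π a i} g i = ind {i | π a i} g j
  have h : (i ∈ {i | π a i}) ↔ (j ∈ {i | π a i}) :=
    ⟨fun h => π.trans h hij, fun h => π.trans h (π.symm hij)⟩
  unfold ind
  by_cases hi : i ∈ {i | π a i}
  · rw [if_pos hi, if_pos (h.1 hi)]
  · rw [if_neg hi, if_neg (fun h' => hi (h.2 h'))]

/-- a function that is constant on the blocks of `π ⊓ σ` lies in any subgroup containing the
functions constant on the blocks of `π` and of `σ` -/
lemma mem_of_ker (hG : commutator G = ⊤) (π σ : Setoid (Fin (n + 1)))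
    (K : Subgroup (Fin (n + 1) → G)) (hπ : ∀ h, π ≤ Setoid.ker h → h ∈ K)
    (hσ : ∀ h, σ ≤ Setoid.ker h → h ∈ K) :
    ∀ h : Fin (n + 1) → G, π ⊓ σ ≤ Setoid.ker h → h ∈ K := by
  classical
  -- block indicators
  have hblock : ∀ (a : Fin (n + 1)) (g : G), ind ({i | π a i} ∩ {i | σ a i}) g ∈ K := by
    intro a
    let Q : Subgroup G :=
      { carrier := {g | ind ({i | π a i} ∩ {i | σ a i}) g ∈ K}
        one_mem' := by
          have : ind ({i | π a i} ∩ {i | σ a i}) (1 : G) = 1 := by
            funext i; simp [ind]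
          show ind _ _ ∈ K
          rw [this]; exact K.one_mem
        mul_mem' := fun {x y} hx hy => by
          show ind _ _ ∈ K
          rw [ind_mul]; exact K.mul_mem hx hy
        inv_mem' := fun {x} hx => by
          show ind _ _ ∈ K
          rw [ind_inv]; exact K.inv_mem hx }
    have hQ : commutator G ≤ Q := by
      rw [commutator_eq_closure, Subgroup.closure_le]
      rintro _ ⟨g, h, rfl⟩
      show ind _ _ ∈ K
      rw [← ind_comm, commutatorElement_def]
      have h1 := hπ _ (ind_ker π a g)
      have h2 := hσ _ (ind_ker σ a h)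
      exact K.mul_mem (K.mul_mem (K.mul_mem h1 h2) (K.inv_mem h1)) (K.inv_mem h2)
    intro g
    have : g ∈ Q := hQ (by rw [hG]; trivial)
    exact this
  -- induction on the number of nontrivial coordinates
  suffices H : ∀ m : ℕ, ∀ h : Fin (n + 1) → G, π ⊓ σ ≤ Setoid.ker h →
      (Finset.univ.filter fun i => h i ≠ 1).card = m → h ∈ K from fun h hh => H _ h hh rfl
  intro m
  induction m using Nat.strong_induction_on with
  | _ m ih =>
    intro h hh hm
    by_cases h1 : ∀ i, h i = 1
    · have : h = 1 := funext h1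
      rw [this]; exact K.one_mem
    push Not at h1
    obtain ⟨a, ha⟩ := h1
    set B : Set (Fin (n + 1)) := {i | π a i} ∩ {i | σ a i} with hB
    have haB : a ∈ B := ⟨π.refl a, σ.refl a⟩
    have hconst : ∀ i ∈ B, h i = h a := by
      intro i hi
      have : (π ⊓ σ) a i := ⟨hi.1, hi.2⟩
      exact (hh this).symm
    set h' : Fin (n + 1) → G := (ind B (h a))⁻¹ * h with hh'
    have hval : ∀ i, h' i = if i ∈ B then 1 else h i := by
      intro i
      rw [hh', Pi.mul_apply, Pi.inv_apply]
      by_cases hi : i ∈ B
      · simp [ind, hi, hconst i hi]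
      · simp [ind, hi]
    have hker : π ⊓ σ ≤ Setoid.ker h' := by
      intro i j hij
      show h' i = h' j
      have hiff : i ∈ B ↔ j ∈ B :=
        ⟨fun hi => ⟨π.trans hi.1 hij.1, σ.trans hi.2 hij.2⟩,
          fun hj => ⟨π.trans hj.1 (π.symm hij.1), σ.trans hj.2 (σ.symm hij.2)⟩⟩
      have he : h i = h j := hh hij
      rw [hval, hval, he]
      simp only [hiff]
    have hlt : (Finset.univ.filter fun i => h' i ≠ 1).card < m := by
      rw [← hm]
      apply Finset.card_lt_card
      rw [Finset.ssubset_iff_of_subset]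
      · exact ⟨a, by simp [ha], by simp [hval, haB]⟩
      · intro i hi
        rw [Finset.mem_filter] at hi ⊢
        refine ⟨Finset.mem_univ _, fun hne => hi.2 ?_⟩
        rw [hval, hne]; simp
    have h2 := ih _ hlt h' hker rfl
    have h3 : h = ind B (h a) * h' := by rw [hh']; group
    rw [h3]
    exact K.mul_mem (hblock a _) h2

lemma rel_inf (hG : commutator G = ⊤) (π σ : Setoid (Fin (n + 1))) :
    rel (G := G) (π ⊓ σ) = rel π ⊔ rel σ := by
  apply le_antisymm
  · intro f g hfg
    have hK := mem_of_ker hG π σ (stab (rel π ⊔ rel σ))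
      (fun h hh x => (le_sup_left : rel π ≤ rel π ⊔ rel σ) (rel_nrm_mul π x h hh))
      (fun h hh x => (le_sup_right : rel σ ≤ rel π ⊔ rel σ) (rel_nrm_mul σ x h hh))
      (fun i => (ext f i)⁻¹ * ext g i) hfg
    have := hK (ext f)
    have e : ext f * (fun i => (ext f i)⁻¹ * ext g i) = ext g := by
      funext i; simp
    rw [e, nrm_ext, nrm_ext] at this
    exact this
  · exact sup_le (rel_anti inf_le_left) (rel_anti inf_le_right)

lemma rel_le_iff [Nontrivial G] {π σ : Setoid (Fin (n + 1))} (h : rel (G := G) σ ≤ rel π) :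
    π ≤ σ := by
  intro i j hij
  by_contra hno
  obtain ⟨g, hg⟩ := exists_ne (1 : G)
  have h1 : rel σ (nrm (1 : Fin (n + 1) → G)) (nrm (1 * ind {k | σ j k} g)) :=
    rel_nrm_mul σ 1 _ (ind_ker σ j g)
  have h2 : (ext (nrm (1 : Fin (n + 1) → G)) i)⁻¹ * ext (nrm (1 * ind {k | σ j k} g)) i
      = (ext (nrm (1 : Fin (n + 1) → G)) j)⁻¹ * ext (nrm (1 * ind {k | σ j k} g)) j := h h1 hij
  have hi : ¬ σ j i := fun h' => hno (σ.symm h')
  rw [ext_nrm, ext_nrm, ext_nrm, ext_nrm, one_mul] at h2
  simp [ind, hi] at h2
  exact hg h2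

lemma rel_injective [Nontrivial G] :
    Function.Injective (rel (G := G) : Setoid (Fin (n + 1)) → Setoid (Fin n → G)) := by
  intro π σ h
  exact le_antisymm (rel_le_iff (G := G) h.ge) (rel_le_iff (G := G) h.le)

end group

lemma Representable.congr {L : Type} [Lattice L] {A B : Type} (e : A ≃ B)
    (h : Representable L A) : Representable L B := by
  obtain ⟨f, hf, hinf, hsup⟩ := h
  have e' : Setoid A ≃o Setoid B :=
    { toFun := Setoid.comap e.symm
      invFun := Setoid.comap e
      left_inv := fun r => by
        apply Setoid.ext; intro x y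
        rw [Setoid.comap_rel, Setoid.comap_rel, e.symm_apply_apply, e.symm_apply_apply]
      right_inv := fun r => by
        apply Setoid.ext; intro x y
        rw [Setoid.comap_rel, Setoid.comap_rel, e.apply_symm_apply, e.apply_symm_apply]
      map_rel_iff' := by
        intro r s
        constructor
        · intro h x y hxy
          have := @h (e x) (e y) (by
            show Setoid.comap e.symm r (e x) (e y)
            rw [Setoid.comap_rel, e.symm_apply_apply, e.symm_apply_apply]; exact hxy)
          have h2 : Setoid.comap e.symm s (e x) (e y) := this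
          rw [Setoid.comap_rel, e.symm_apply_apply, e.symm_apply_apply] at h2
          exact h2
        · intro h x y hxy
          exact h hxy }
  exact ⟨fun x => e' (f x), e'.injective.comp hf,
    fun x y => by
      show e' (f (x ⊓ y)) = e' (f x) ⊓ e' (f y)
      rw [hinf, map_inf],
    fun x y => by
      show e' (f (x ⊔ y)) = e' (f x) ⊔ e' (f y)
      rw [hsup, map_sup]⟩

theorem representable_dual (n : ℕ) :
    Representable (Setoid (Fin (n + 1)))ᵒᵈ (Fin (60 ^ n)) := by
  have hG : commutator (alternatingGroup (Fin 5)) = ⊤ :=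
    commutator_alternatingGroup_eq_top (by simp)
  have hcard : Nat.card (alternatingGroup (Fin 5)) = 60 := by
    rw [nat_card_alternatingGroup]; simp [Nat.factorial]
  have hcard' : Fintype.card (alternatingGroup (Fin 5)) = 60 := by
    rw [← Nat.card_eq_fintype_card, hcard]
  have : Nontrivial (alternatingGroup (Fin 5)) := by
    rw [← Fintype.one_lt_card_iff_nontrivial, hcard']; norm_num
  have h : Representable (Setoid (Fin (n + 1)))ᵒᵈ (Fin n → alternatingGroup (Fin 5)) := by
    refine ⟨fun π => rel (OrderDual.ofDual π), ?_, ?_, ?_⟩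
    · intro π σ h
      exact OrderDual.ofDual.injective (rel_injective h)
    · intro π σ
      exact rel_sup _ _
    · intro π σ
      exact rel_inf hG _ _
  refine h.congr (Fintype.equivFinOfCardEq ?_)
  rw [Fintype.card_fun, hcard', Fintype.card_fin]

/-- For every `n` the dual of the partition lattice of an `(n + 1)`-element set is representable by
partitions of a set with `60 ^ n` elements, so its Whitman number is at most `60 ^ n`.  In
particular the dual `L_4^*` of `Π_4` is representable by partitions of a set with `60 ^ 3`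
elements, and `w(L_4^*) ≤ 60 ^ 3 ≤ 2 ^ 1000`. -/
theorem result :
    (∀ n : ℕ, Representable (Setoid (Fin (n + 1)))ᵒᵈ (Fin (60 ^ n)) ∧
      whitmanNumber (Setoid (Fin (n + 1)))ᵒᵈ ≤ 60 ^ n) ∧
    whitmanNumber (Setoid (Fin 4))ᵒᵈ ≤ 60 ^ 3 ∧ 60 ^ 3 ≤ 2 ^ 1000 := by
  have h : ∀ n : ℕ, Representable (Setoid (Fin (n + 1)))ᵒᵈ (Fin (60 ^ n)) ∧
      whitmanNumber (Setoid (Fin (n + 1)))ᵒᵈ ≤ 60 ^ n :=
    fun n => ⟨representable_dual n, Nat.sInf_le (representable_dual n)⟩
  exact ⟨h, (h 3).2, (by norm_num : 60 ^ 3 ≤ 2 ^ 18).trans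
    (Nat.pow_le_pow_right (by norm_num) (by norm_num))⟩

end Pool.Agent.Results.MP_437e5a_co.WhitmanNumberBound
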